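import Mathlib
import Pool.Agent.Mg.F8d3206.Gb8c816

namespace Pool.Agent.Results.MP_8d3206_nt.AllNorms

open Pool.Agent.MP_8d3206_nt Real

/-- The value of `G(φ, φ²)` for every norm on the plane; closed forms, different from `φ`, for the
sup-norm and the Euclidean norm; and a norm for which the value is `φ`. -/
theorem result (φ : ℝ) (h : φ ^ 3 = φ + 1) :
    (∀ N : Seminorm ℝ (ℝ × ℝ), (∀ v, N v = 0 → v = 0) →
      (∃ U : Finset (ℤ × ℤ × ℤ), ∀ t z, 1 ≤ ht φ z → ht φ z < φ → RotMin N φ t z → z ∈ U) ∧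
      ∃ κ : ℝ, 0 < κ ∧
        Filter.limsup (fun n : ℕ => (∑ k ∈ Finset.range n,
          (minCount N φ (k * arccos (-(φ * √φ) / 2)) : ℝ)) / n) Filter.atTop = κ ∧
        growth N (φ, φ ^ 2) = φ ^ (1 / κ) ∧
        ((∀ z, MeasureTheory.volume (frontier {t | RotMin N φ t z}) = 0) ∨
            (∃ L : Finset (ℝ × ℝ), ∀ v, (∀ l ∈ L, ∀ c : ℝ, v ≠ c • l) → AnalyticAt ℝ N v) →
          κ = (∫ t in (0 : ℝ)..π, (minCount N φ t : ℝ)) / π)) ∧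
    growth (fun v => max |v.1| |v.2|) (φ, φ ^ 2) =
      φ ^ (π / arctan (√(3 * φ ^ 2 - 4) / (3 * φ - 2 * φ ^ 2))) ∧
    growth (fun v => √(v.1 ^ 2 + v.2 ^ 2)) (φ, φ ^ 2) =
      φ ^ (π / arctan (√(3 * φ ^ 2 - 4) /
        (φ + 2 * (√(3 * φ ^ 2 + φ - 2) - (φ ^ 2 + φ + 2)) / (2 * φ ^ 2 + 3 * φ)))) ∧
    growth (fun v => max |v.1| |v.2|) (φ, φ ^ 2) ≠ φ ∧
    growth (fun v => √(v.1 ^ 2 + v.2 ^ 2)) (φ, φ ^ 2) ≠ φ ∧
    ∃ N : Seminorm ℝ (ℝ × ℝ), (∀ v, N v = 0 → v = 0) ∧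
      (∀ v, N v = √(v.1 ^ 2 - φ ^ 2 * v.1 * v.2 + φ * v.2 ^ 2)) ∧ growth N (φ, φ ^ 2) = φ := by
  obtain ⟨h1, h2, h3, h4⟩ := final φ h
  refine ⟨fun N hN => ⟨?_, _, (growth_gen h hN).1, rfl, (growth_gen h hN).2, fun H =>
    mean_int h hN (H.elim id fun ⟨L, hL⟩ => null_of_analytic h hN L hL)⟩, h1, h2, h3, h4,
    NQ φ, NQ_def h, NQ_eq h, growth_Q h⟩
  obtain ⟨c, C, hc, -, hb⟩ := FF_bounds N h hN
  exact exists_U h hc hb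

end Pool.Agent.Results.MP_8d3206_nt.AllNorms
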